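import Pool.Agent.Helper4_Eng.Gtw

set_option autoImplicit false

namespace Pool.Agent.Eng.H4

open Matrix Polynomial

theorem grt : GrtStmt := by
  intro F _ _ n g lam hlam
  classical
  set A : Matrix (Fin n ⊕ Fin n) (Fin n ⊕ Fin n) F := (g : Matrix (Fin n ⊕ Fin n) (Fin n ⊕ Fin n) F)
    with hA
  have hfin : Finite (Sp n F) := inferInstance
  have hord : A ^ orderOf g = 1 := by
    have h1 : g ^ orderOf g = 1 := pow_orderOf_eq_one g
    have h3 := congrArg Subtype.val h1
    rwa [SubmonoidClass.coe_pow] at h3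
  have hop : 0 < orderOf g := orderOf_pos g
  have hpow := eig_pow A (orderOf g) hord lam hlam
  have h0 : lam ≠ 0 := by
    rintro rfl
    rw [zero_pow hop.ne'] at hpow
    exact zero_ne_one hpow
  refine ⟨h0, ?_, ?_⟩
  · -- the inverse
    set B : Matrix (Fin n ⊕ Fin n) (Fin n ⊕ Fin n) (AlgebraicClosure F) :=
      A.map (algebraMap F (AlgebraicClosure F)) with hB
    set A' : Matrix (Fin n ⊕ Fin n) (Fin n ⊕ Fin n) F :=
      ((g⁻¹ : Sp n F) : Matrix (Fin n ⊕ Fin n) (Fin n ⊕ Fin n) F) with hA'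
    have hAA' : A * A' = 1 := by
      have h1 := congrArg Subtype.val (mul_inv_cancel g)
      exact h1
    have hA'A : A' * A = 1 := by
      have h1 := congrArg Subtype.val (inv_mul_cancel g)
      exact h1
    have hcp : A'.charpoly = A.charpoly := by
      have h1 : A' = (-J (Fin n) F) * Aᵀ * J (Fin n) F := SymplecticGroup.coe_inv g
      let U : (Matrix (Fin n ⊕ Fin n) (Fin n ⊕ Fin n) F)ˣ :=
        ⟨J (Fin n) F, -J (Fin n) F, by rw [mul_neg, J_squared, neg_neg],
          by rw [neg_mul, J_squared, neg_neg]⟩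
      have h3 := Matrix.charpoly_units_conj' U Aᵀ
      have h4 : ((U⁻¹ : (Matrix (Fin n ⊕ Fin n) (Fin n ⊕ Fin n) F)ˣ) :
        Matrix (Fin n ⊕ Fin n) (Fin n ⊕ Fin n) F) * Aᵀ * U.val = A' := h1.symm
      rw [Matrix.coe_units_inv] at h4
      rw [← h4, h3, Matrix.charpoly_transpose]
    have hr : IsRoot B.charpoly lam := by
      rw [hB, Matrix.charpoly_map, Polynomial.IsRoot.def, Polynomial.eval_map_algebraMap]
      exact hlam
    have hs : lam ∈ spectrum (AlgebraicClosure F) B := Matrix.mem_spectrum_of_isRoot_charpoly hr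
    let f : Matrix (Fin n ⊕ Fin n) (Fin n ⊕ Fin n) F →+*
      Matrix (Fin n ⊕ Fin n) (Fin n ⊕ Fin n) (AlgebraicClosure F) :=
      (algebraMap F (AlgebraicClosure F)).mapMatrix
    let V : (Matrix (Fin n ⊕ Fin n) (Fin n ⊕ Fin n) (AlgebraicClosure F))ˣ :=
      ⟨f A, f A', by rw [← map_mul, hAA', map_one], by rw [← map_mul, hA'A, map_one]⟩
    have hs2 : (Units.mk0 lam h0 : (AlgebraicClosure F)ˣ).val ∈ spectrum (AlgebraicClosure F)
      (V : Matrix (Fin n ⊕ Fin n) (Fin n ⊕ Fin n) (AlgebraicClosure F)) := hs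
    rw [spectrum.inv_mem_iff] at hs2
    have hs3 : lam⁻¹ ∈ spectrum (AlgebraicClosure F) (f A') := hs2
    rw [Matrix.mem_spectrum_iff_isRoot_charpoly] at hs3
    change IsRoot (A'.map (algebraMap F (AlgebraicClosure F))).charpoly lam⁻¹ at hs3
    rw [Matrix.charpoly_map, Polynomial.IsRoot.def, Polynomial.eval_map_algebraMap, hcp] at hs3
    exact hs3
  · have := Fintype.ofFinite F
    rw [Nat.card_eq_fintype_card]
    change aeval (lam ^ Fintype.card F) A.charpoly = 0
    rw [← expand_aeval, FiniteField.expand_card, map_pow]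
    have h1 : aeval lam A.charpoly = 0 := hlam
    rw [h1, zero_pow Fintype.card_ne_zero]

theorem gun : GunStmt := by
  intro F ι _ _ _ p _ A c b hp hA hb
  classical
  rcases isEmpty_or_nonempty ι with hι | hι
  · exact Subsingleton.elim _ _
  have hpf : Fact p.Prime := ⟨hp⟩
  have h1 : (A - 1) ^ (p ^ c) = 0 := by
    rw [sub_pow_char_pow_of_commute _ _ (Commute.one_right A), hA, one_pow, sub_self]
  have h3 : IsNilpotent (A - 1) := ⟨_, h1⟩
  have h4 : (A - 1).charpoly = X ^ Fintype.card ι := by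
    have h5 := Matrix.isNilpotent_charpoly_sub_pow_of_isNilpotent h3
    exact sub_eq_zero.1 h5.eq_zero
  have h6 : (A - 1) ^ Fintype.card ι = 0 := by
    have h7 := Matrix.aeval_self_charpoly (A - 1)
    rwa [h4, map_pow, aeval_X] at h7
  have h8 : (A - 1) ^ (p ^ b) = 0 := pow_eq_zero_of_le hb h6
  rw [sub_pow_char_pow_of_commute _ _ (Commute.one_right A), one_pow, sub_eq_zero] at h8
  exact h8

end Pool.Agent.Eng.H4
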