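import Pool.Agent.Helper13_Eng2.Stmts
import Pool.Agent.Helper4_Eng.Grt

set_option autoImplicit false

namespace Pool.Agent.Eng.H4

open Matrix Polynomial

/-- GUE -/
theorem gue : GueStmt := by
  intro K _ _ _ q n g lam hq hlam
  classical
  set A : Matrix (Fin n) (Fin n) K := (g : Matrix (Fin n) (Fin n) K) with hA
  have hfin : Finite (SU n K) := inferInstance
  have hord : A ^ orderOf g = 1 := by
    have h1 : g ^ orderOf g = 1 := pow_orderOf_eq_one g
    have h3 := congrArg Subtype.val h1
    rwa [SubmonoidClass.coe_pow] at h3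
  have hop : 0 < orderOf g := orderOf_pos g
  have hpow := eig_pow A (orderOf g) hord lam hlam
  have h0 : lam ≠ 0 := by
    rintro rfl
    rw [zero_pow hop.ne'] at hpow
    exact zero_ne_one hpow
  refine ⟨h0, ?_⟩
  obtain ⟨p, hp⟩ := CharP.exists K
  have := Fintype.ofFinite K
  obtain ⟨f, hpp, hf⟩ := FiniteField.card K p
  have hfp : Fact p.Prime := ⟨hpp⟩
  obtain ⟨k, hk⟩ : ∃ k, q = p ^ k := by
    have h1 : q ∣ p ^ (f : ℕ) := by
      rw [← hf, ← Nat.card_eq_fintype_card, hq.card]
      exact ⟨q, by ring⟩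
    obtain ⟨k, _, hk⟩ := (Nat.dvd_prime_pow hpp).mp h1
    exact ⟨k, hk⟩
  have hpc : CharP (AlgebraicClosure K) p := charP_of_injective_algebraMap
    (algebraMap K (AlgebraicClosure K)).injective p
  let φ : AlgebraicClosure K →+* AlgebraicClosure K := iterateFrobenius (AlgebraicClosure K) p k
  have hφ : ∀ x, φ x = x ^ q := by
    intro x
    rw [hk]
    exact iterateFrobenius_def p k x
  have hstar : ∀ x : K, starRingEnd K x = x ^ q := fun x => hq.star x
  have hAA : star A * A = 1 := by
    have := g.2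
    rw [Matrix.mem_specialUnitaryGroup_iff] at this
    exact (Matrix.mem_unitaryGroup_iff'.mp this.1)
  have hAA' : A * star A = 1 := by
    have := g.2
    rw [Matrix.mem_specialUnitaryGroup_iff] at this
    exact (Matrix.mem_unitaryGroup_iff.mp this.1)
  have hcp : (star A).charpoly = A.charpoly.map (starRingEnd K) := by
    have h1 : star A = (A.map (starRingEnd K))ᵀ := by
      ext i j
      rfl
    rw [h1, Matrix.charpoly_transpose, Matrix.charpoly_map]
  have hs0 : aeval (lam ^ q) (star A).charpoly = 0 := by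
    rw [hcp, aeval_def, eval₂_map]
    have h2 : (algebraMap K (AlgebraicClosure K)).comp (starRingEnd K) =
        φ.comp (algebraMap K (AlgebraicClosure K)) := by
      ext x
      rw [RingHom.comp_apply, RingHom.comp_apply, hφ, hstar, map_pow]
    rw [h2, ← hφ, ← Polynomial.hom_eval₂]
    have h3 : eval₂ (algebraMap K (AlgebraicClosure K)) lam A.charpoly = 0 := hlam
    rw [h3, map_zero]
  -- the inverse
  have h0' : lam ^ q ≠ 0 := pow_ne_zero _ h0
  let F : Matrix (Fin n) (Fin n) K →+* Matrix (Fin n) (Fin n) (AlgebraicClosure K) :=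
    (algebraMap K (AlgebraicClosure K)).mapMatrix
  let W : (Matrix (Fin n) (Fin n) (AlgebraicClosure K))ˣ :=
    ⟨F (star A), F A, by rw [← map_mul, hAA, map_one], by rw [← map_mul, hAA', map_one]⟩
  have hr : IsRoot ((star A).map (algebraMap K (AlgebraicClosure K))).charpoly (lam ^ q) := by
    rw [Matrix.charpoly_map, Polynomial.IsRoot.def, Polynomial.eval_map_algebraMap]
    exact hs0
  have hs : lam ^ q ∈ spectrum (AlgebraicClosure K) (F (star A)) :=
    Matrix.mem_spectrum_of_isRoot_charpoly hr
  have hs2 : (Units.mk0 (lam ^ q) h0' : (AlgebraicClosure K)ˣ).val ∈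
    spectrum (AlgebraicClosure K) (W : Matrix (Fin n) (Fin n) (AlgebraicClosure K)) := hs
  rw [spectrum.inv_mem_iff] at hs2
  have hs3 : (lam ^ q)⁻¹ ∈ spectrum (AlgebraicClosure K) (F A) := hs2
  rw [Matrix.mem_spectrum_iff_isRoot_charpoly] at hs3
  change IsRoot (A.map (algebraMap K (AlgebraicClosure K))).charpoly (lam ^ q)⁻¹ at hs3
  rw [Matrix.charpoly_map, Polynomial.IsRoot.def, Polynomial.eval_map_algebraMap] at hs3
  exact hs3

end Pool.Agent.Eng.H4
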