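import Pool.Agent.Helper6_Eng.Stmts

set_option autoImplicit false

namespace Pool.Agent.Eng.H4

theorem dns : DnsStmt := by
  intro F _ _ h2 hcard
  classical
  have := Fintype.ofFinite F
  by_contra hcon
  push Not at hcon
  have hsub : ∀ x y : F, x ≠ 0 → y ≠ 0 → IsSquare (x ^ 2 - y ^ 2) := by
    intro x y hx hy
    have h1 := hcon (x / y) (div_ne_zero hx hy)
    have h3 : x ^ 2 - y ^ 2 = y ^ 2 * ((x / y) ^ 2 - 1) := by field_simp
    rw [h3]
    exact (IsSquare.sq y).mul h1
  have hm1 : IsSquare (-1 : F) := by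
    obtain ⟨y, hy⟩ : ∃ y : F, y ∉ ({0, 1, -1} : Finset F) := by
      by_contra hc
      push Not at hc
      have h1 : (Finset.univ : Finset F) ⊆ {0, 1, -1} := fun x _ => hc x
      have h3 := Finset.card_le_card h1
      have h4 : ({0, 1, -1} : Finset F).card ≤ 3 := Finset.card_le_three
      rw [Finset.card_univ, ← Nat.card_eq_fintype_card] at h3
      omega
    simp only [Finset.mem_insert, Finset.mem_singleton, not_or] at hy
    obtain ⟨hy0, hy1, hy2⟩ := hy
    have h1 := hsub y 1 hy0 one_ne_zero
    have h3 := hsub 1 y one_ne_zero hy0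
    have h4 : y ^ 2 - 1 ^ 2 ≠ 0 := by
      intro h
      have h5 : (y - 1) * (y + 1) = 0 := by linear_combination h
      rcases mul_eq_zero.1 h5 with h6 | h6
      · exact hy1 (sub_eq_zero.1 h6)
      · exact hy2 (eq_neg_of_add_eq_zero_left h6)
    have h5 : (-1 : F) = (1 ^ 2 - y ^ 2) / (y ^ 2 - 1 ^ 2) := by
      rw [eq_div_iff h4]; ring
    rw [h5]
    exact h3.div h1
  have hall : ∀ x : F, IsSquare x := by
    intro x
    by_cases ha : (x + 1) / 2 = 0
    · have h1 : x = -1 := by
        rw [div_eq_zero_iff] at ha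
        rcases ha with ha | ha
        · exact eq_neg_of_add_eq_zero_left ha
        · exact absurd ha h2
      rw [h1]; exact hm1
    by_cases hb : (x - 1) / 2 = 0
    · have h1 : x = 1 := by
        rw [div_eq_zero_iff] at hb
        rcases hb with hb | hb
        · exact sub_eq_zero.1 hb
        · exact absurd hb h2
      rw [h1]; exact IsSquare.one
    have h1 := hsub _ _ ha hb
    have h3 : ((x + 1) / 2) ^ 2 - ((x - 1) / 2) ^ 2 = x := by
      field_simp; ring
    rwa [h3] at h1
  have hr : ringChar F ≠ 2 := by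
    intro h
    apply h2
    have := ringChar.Nat.cast_ringChar (R := F)
    rw [h] at this
    exact_mod_cast this
  obtain ⟨a, ha⟩ := FiniteField.exists_nonsquare hr
  exact ha (hall a)

end Pool.Agent.Eng.H4
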