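import Pool.Agent.Helper6_Eng.Stmts

set_option autoImplicit false

namespace Pool.Agent.Eng.H4

open Matrix Polynomial

theorem gex : GexStmt := by
  intro F ι _ _ _ A N e a hN hA hev
  classical
  have hint : IsIntegral F A := Algebra.IsIntegral.isIntegral A
  have key : aeval A (X ^ e - C a : F[X]) = 0 := by
    by_cases hq0 : (X ^ e - C a : F[X]) = 0
    · rw [hq0, map_zero]
    have hp0 : minpoly F A ≠ 0 := minpoly.ne_zero hint
    have hdvd : minpoly F A ∣ X ^ N - 1 := minpoly.dvd F A (by simp [hA])
    have hsep : (minpoly F A).Separable := (X_pow_sub_one_separable_iff.2 hN).of_dvd hdvd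
    have hq1 : (X ^ e - C a : F[X]).map (algebraMap F (AlgebraicClosure F)) ≠ 0 :=
      (Polynomial.map_ne_zero_iff (algebraMap F (AlgebraicClosure F)).injective).2 hq0
    have hroots : ((minpoly F A).map (algebraMap F (AlgebraicClosure F))).roots ≤
        ((X ^ e - C a : F[X]).map (algebraMap F (AlgebraicClosure F))).roots := by
      rw [Multiset.le_iff_subset (nodup_roots hsep.map)]
      intro mu hmu
      rw [mem_roots'] at hmu
      rw [mem_roots']
      refine ⟨hq1, ?_⟩
      have h1 : Eig A mu := by
        have h2 : aeval mu (minpoly F A) = 0 := by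
          have := hmu.2
          rwa [IsRoot.def, eval_map_algebraMap] at this
        exact aeval_eq_zero_of_dvd_aeval_eq_zero (Matrix.minpoly_dvd_charpoly A) h2
      rw [IsRoot.def, eval_map_algebraMap, map_sub, map_pow, aeval_X, aeval_C, hev mu h1, sub_self]
    have h1 : (minpoly F A).map (algebraMap F (AlgebraicClosure F)) ∣
        (X ^ e - C a : F[X]).map (algebraMap F (AlgebraicClosure F)) :=
      (IsAlgClosed.splits _).dvd_of_roots_le_roots
        ((Polynomial.map_ne_zero_iff (algebraMap F (AlgebraicClosure F)).injective).2 hp0) hroots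
    have h2 : minpoly F A ∣ (X ^ e - C a : F[X]) :=
      (Polynomial.map_dvd_map' (algebraMap F (AlgebraicClosure F))).1 h1
    exact aeval_eq_zero_of_dvd_aeval_eq_zero h2 (minpoly.aeval F A)
  rw [map_sub, map_pow, aeval_X, aeval_C, sub_eq_zero] at key
  rw [key, Algebra.algebraMap_eq_smul_one]

end Pool.Agent.Eng.H4
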