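import Pool.Agent.Helper6_Eng.Stmts

set_option autoImplicit false

namespace Pool.Agent.Eng.H4

open Matrix

/-- `x ↦ (x, 1)` in block form. -/
noncomputable def psi0 {F K : Type} [Field F] [Field K] [Algebra F K] {e n : ℕ}
    (b : Module.Basis (Fin e) F K) (s : Fin e ⊕ Fin (n - e) ≃ Fin n) :
    K →* Matrix (Fin n) (Fin n) F where
  toFun x := Matrix.reindexAlgEquiv F F s (fromBlocks (Algebra.leftMulMatrix b x) 0 0 1)
  map_one' := by
    rw [map_one, fromBlocks_one, map_one]
  map_mul' x y := by
    rw [← map_mul, fromBlocks_multiply, map_mul]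
    simp

theorem ghx : GhxStmt := by
  intro F _ _ e n N h2 he hen hN
  classical
  obtain ⟨p, hp⟩ := CharP.exists F
  have hpp : Fact p.Prime := ⟨CharP.char_is_prime F p⟩
  have : NeZero e := ⟨by omega⟩
  set K := FiniteField.Extension F p e with hK
  have hfr : Module.finrank F K = e := FiniteField.finrank_extension F p e
  have hcard : Nat.card K = Nat.card F ^ e := FiniteField.natCard_extension F p e
  let b : Module.Basis (Fin e) F K := Module.finBasisOfFinrankEq F K hfr
  let s : Fin e ⊕ Fin (n - e) ≃ Fin n := finSumFinEquiv.trans (finCongr (by omega))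
  have hu : Nat.card Kˣ = Nat.card F ^ e - 1 := by
    rw [Nat.card_units, hcard]
  have hpos : 0 < Nat.card Kˣ := Nat.card_pos
  have hNu : N ∣ Nat.card Kˣ := by rw [hu]; exact hN
  obtain ⟨g0, hg0⟩ := IsCyclic.exists_ofOrder_eq_natCard (α := Kˣ)
  obtain ⟨x, hx⟩ : ∃ x : Kˣ, orderOf x = N := by
    refine ⟨g0 ^ (Nat.card Kˣ / N), ?_⟩
    rw [← hg0]
    exact orderOf_pow_orderOf_div (by rw [hg0]; exact hpos.ne') (by rw [hg0]; exact hNu)
  refine ⟨Units.map (psi0 b s) x, ?_, ?_⟩
  · rw [← map_pow, ← hx, pow_orderOf_eq_one, map_one]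
  · intro d hd
    rw [← map_pow] at hd
    rcases hd with hd | hd
    · have h1 := congrArg Units.val hd
      rw [Units.coe_map, Units.val_one] at h1
      change Matrix.reindexAlgEquiv F F s (fromBlocks (Algebra.leftMulMatrix b ((x ^ d : Kˣ) : K))
        0 0 1) = 1 at h1
      rw [← map_one (Matrix.reindexAlgEquiv F F s), ← fromBlocks_one] at h1
      have h3 := (fromBlocks_inj.1 ((Matrix.reindexAlgEquiv F F s).injective h1)).1
      rw [← map_one (Algebra.leftMulMatrix b)] at h3
      have h4 : x ^ d = 1 := Units.ext (Algebra.leftMulMatrix_injective b h3)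
      have h5 : N ∣ d := by rw [← hx]; exact orderOf_dvd_of_pow_eq_one h4
      exact ⟨h5.mul_left 2, fun _ => h5⟩
    · have h1 := congrArg Units.val hd
      rw [Units.coe_map, Units.val_neg, Units.val_one] at h1
      change Matrix.reindexAlgEquiv F F s (fromBlocks (Algebra.leftMulMatrix b ((x ^ d : Kˣ) : K))
        0 0 1) = -1 at h1
      rw [← map_one (Matrix.reindexAlgEquiv F F s), ← map_neg, ← fromBlocks_one, fromBlocks_neg] at h1
      have h3 := fromBlocks_inj.1 ((Matrix.reindexAlgEquiv F F s).injective h1)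
      constructor
      · have h4 := h3.1
        rw [← map_one (Algebra.leftMulMatrix b), ← map_neg] at h4
        have h5 : ((x ^ d : Kˣ) : K) = -1 := Algebra.leftMulMatrix_injective b h4
        rw [← hx]
        apply orderOf_dvd_of_pow_eq_one
        apply Units.ext
        rw [mul_comm, pow_mul, Units.val_pow_eq_pow_val, h5]
        simp
      · intro hlt
        exfalso
        have h4 := congrFun (congrFun h3.2.2.2 ⟨0, by omega⟩) ⟨0, by omega⟩
        rw [Matrix.neg_apply, Matrix.one_apply_eq] at h4
        apply h2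
        linear_combination h4

end Pool.Agent.Eng.H4
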