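import Pool.Agent.Helper6_Eng.Stmts

set_option autoImplicit false

namespace Pool.Agent.Eng.H4

open Matrix Polynomial

/-- Eigenvalues of a matrix with `A ^ N = 1` satisfy `lam ^ N = 1`. -/
lemma eig_pow {F ι : Type} [Field F] [Fintype ι] [DecidableEq ι] (A : Matrix ι ι F) (N : ℕ)
    (h : A ^ N = 1) (lam : AlgebraicClosure F) (hl : Eig A lam) : lam ^ N = 1 := by
  classical
  set B : Matrix ι ι (AlgebraicClosure F) := A.map (algebraMap F (AlgebraicClosure F)) with hB
  have h1 : IsRoot B.charpoly lam := by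
    rw [hB, Matrix.charpoly_map, Polynomial.IsRoot.def, Polynomial.eval_map_algebraMap]
    exact hl
  have h2 : lam ∈ spectrum (AlgebraicClosure F) B := Matrix.mem_spectrum_of_isRoot_charpoly h1
  have h3 := spectrum.pow_mem_pow B N h2
  have h4 : B ^ N = 1 := by
    rw [hB, ← Matrix.map_pow, h, Matrix.map_one _ (map_zero _) (map_one _)]
  rw [h4] at h3
  by_contra hne
  apply spectrum.mem_iff.1 h3
  rw [← map_one (algebraMap (AlgebraicClosure F) (Matrix ι ι (AlgebraicClosure F))), ← map_sub]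
  exact (IsUnit.mk0 _ (sub_ne_zero.2 hne)).map _

/-- Roots of the characteristic polynomial: a finite set of eigenvalues has at most `2n`
elements. -/
lemma card_eig {F ι : Type} [Field F] [Fintype ι] [DecidableEq ι] (A : Matrix ι ι F)
    (S : Finset (AlgebraicClosure F)) (hS : ∀ x ∈ S, Eig A x) : S.card ≤ Fintype.card ι := by
  classical
  have h0 : A.charpoly ≠ 0 := (Matrix.charpoly_monic A).ne_zero
  have h1 : S ⊆ (A.charpoly.aroots (AlgebraicClosure F)).toFinset := by
    intro x hx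
    rw [Multiset.mem_toFinset, Polynomial.mem_aroots]
    exact ⟨h0, hS x hx⟩
  calc S.card ≤ _ := Finset.card_le_card h1
    _ ≤ _ := Multiset.toFinset_card_le _
    _ ≤ _ := Polynomial.card_roots' _
    _ = Fintype.card ι := by
      rw [Polynomial.natDegree_map, Matrix.charpoly_natDegree_eq_dim]

lemma odd_card {F : Type} [Field F] [Finite F] (h2 : (2 : F) ≠ 0) : Odd (Nat.card F) := by
  classical
  have := Fintype.ofFinite F
  rw [Nat.card_eq_fintype_card]
  have hr : ringChar F ≠ 2 := by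
    intro h
    apply h2
    have := ringChar.Nat.cast_ringChar (R := F)
    rw [h] at this
    exact_mod_cast this
  exact Nat.odd_iff.2 (FiniteField.odd_card_of_char_ne_two hr)

/-- The number theory of case (b). -/
lemma case_b (q j c : ℕ) (hq : Odd q) (hc : 2 ≤ c) (h : 2 ^ c ∣ q ^ j + 1) : 2 ^ c ∣ q + 1 := by
  have hj : Odd j := by
    rw [← Nat.not_even_iff_odd]
    rintro ⟨i, hi⟩
    have h40 : (4 : ℕ) ∣ 2 ^ c := by
      have h41 := pow_dvd_pow 2 hc
      norm_num at h41
      exact h41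
    have h4 : 4 ∣ q ^ j + 1 := h40.trans h
    have h1 : q ^ j = (q ^ i) ^ 2 := by rw [hi, ← pow_mul]; ring_nf
    have h2 : Odd (q ^ i) := hq.pow
    obtain ⟨t, ht⟩ := h2
    rw [h1, ht] at h4
    have : (2 * t + 1) ^ 2 + 1 = 4 * (t ^ 2 + t) + 2 := by ring
    rw [this] at h4
    omega
  have h1 : (q + 1) * (∑ i ∈ Finset.range j, (q : ℤ) ^ i * (-1) ^ (j - 1 - i)) = (q : ℤ) ^ j + 1 := by
    have := (Commute.all (q : ℤ) (-1)).mul_geom_sum₂ j
    rw [hj.neg_one_pow] at this
    simpa using this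
  set T := ∑ i ∈ Finset.range j, (q : ℤ) ^ i * (-1) ^ (j - 1 - i) with hT
  have hTo : Odd T := by
    rw [hT, Int.odd_iff]
    have : ∀ i ∈ Finset.range j, ((q : ℤ) ^ i * (-1) ^ (j - 1 - i)) % 2 = 1 := by
      intro i _
      rw [← Int.odd_iff]
      have hqz : Odd (q : ℤ) := by exact_mod_cast hq
      exact hqz.pow.mul (by decide : Odd (-1 : ℤ)).pow
    rw [Finset.sum_int_mod, Finset.sum_congr rfl this]
    simp
    exact_mod_cast Nat.odd_iff.1 hj
  have h3 : ((2 ^ c : ℕ) : ℤ) ∣ (q + 1) * T := by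
    rw [h1]; exact_mod_cast h
  have h4 : IsCoprime ((2 ^ c : ℕ) : ℤ) T := by
    push_cast
    apply IsCoprime.pow_left
    obtain ⟨m, hm⟩ := hTo
    exact ⟨-m, 1, by rw [hm]; ring⟩
  have := h4.dvd_of_dvd_mul_right h3
  exact_mod_cast this

theorem gtw (hGex : GexStmt) (hGrt : GrtStmt) (hGhx : GhxStmt) (hScm : SpCenterMatStmt) :
    GtwStmt := by
  intro F _ _ c k n g h2 hn hg hgk
  classical
  set q := Nat.card F with hq
  have hqodd : Odd q := odd_card h2
  by_cases hk : k ≤ 1
  · refine ⟨1, 0, by simp, ?_⟩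
    intro d _ hev _
    exact (pow_dvd_pow 2 hk).trans (by simpa using hev.two_dvd)
  push Not at hk
  set A : Matrix (Fin n ⊕ Fin n) (Fin n ⊕ Fin n) F := (g : Matrix (Fin n ⊕ Fin n) (Fin n ⊕ Fin n) F)
    with hA
  have hpow : ∀ m : ℕ, A ^ m = ((g ^ m : Sp n F) : Matrix (Fin n ⊕ Fin n) (Fin n ⊕ Fin n) F) :=
    fun m => (SubmonoidClass.coe_pow g m).symm
  have hAN : A ^ (2 ^ c) = 1 := by
    rw [hpow, ← hg, pow_orderOf_eq_one]; rfl
  have hcen : ∀ m : ℕ, (A ^ m = 1 ∨ A ^ m = -1) → 2 ^ k ∣ m := by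
    intro m hm
    have hc1 : g ^ m ∈ Subgroup.center (Sp n F) := by
      rw [hScm, ← hpow]; exact hm
    rw [← hgk]
    apply orderOf_dvd_of_pow_eq_one
    rw [← QuotientGroup.mk_pow]
    exact (QuotientGroup.eq_one_iff _).2 hc1
  have hkc : k ≤ c := (Nat.pow_dvd_pow_iff_le_right (by norm_num)).1 (hcen _ (Or.inl hAN))
  have hck : c ≤ k + 1 := by
    have h1 : (QuotientGroup.mk g : PSp n F) ^ (2 ^ k) = 1 := by rw [← hgk, pow_orderOf_eq_one]
    rw [← QuotientGroup.mk_pow] at h1
    have h3 := (QuotientGroup.eq_one_iff _).1 h1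
    rw [hScm, ← hpow] at h3
    have h4 : g ^ (2 ^ (k + 1)) = 1 := by
      apply Subtype.ext
      rw [← hpow, pow_succ, pow_mul]
      rcases h3 with h3 | h3
      · rw [h3]; simp
      · rw [h3]; simp
    have h5 := orderOf_dvd_of_pow_eq_one h4
    rw [hg] at h5
    exact (Nat.pow_dvd_pow_iff_le_right (by norm_num)).1 h5
  have hNz : ((2 ^ c : ℕ) : F) ≠ 0 := by
    push_cast; exact pow_ne_zero _ h2
  obtain ⟨c', rfl⟩ : ∃ c', c = c' + 1 := ⟨c - 1, by omega⟩
  -- an eigenvalue of order `2 ^ c`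
  obtain ⟨mu, hmu, hmu1⟩ : ∃ mu : AlgebraicClosure F, Eig A mu ∧ mu ^ (2 ^ c') ≠ 1 := by
    by_contra hcon
    push Not at hcon
    have h1 := hGex F _ A (2 ^ (c' + 1)) (2 ^ c') 1 hNz hAN
      (fun lam hl => by rw [map_one]; exact hcon lam hl)
    rw [one_smul, hpow] at h1
    have h3 : g ^ (2 ^ c') = 1 := Subtype.ext h1
    have h4 := orderOf_dvd_of_pow_eq_one h3
    rw [hg] at h4
    have := (Nat.pow_dvd_pow_iff_le_right (by norm_num : 1 < 2)).1 h4
    omega
  have hmuN : mu ^ (2 ^ (c' + 1)) = 1 := eig_pow A _ hAN mu hmu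
  have hmu0 : mu ≠ 0 := (hGrt F n g mu hmu).1
  have hord : orderOf mu = 2 ^ (c' + 1) := orderOf_eq_prime_pow hmu1 hmuN
  set f : AlgebraicClosure F → AlgebraicClosure F := fun x => x ^ q with hf
  have hit : ∀ (j : ℕ) (x : AlgebraicClosure F), f^[j] x = x ^ (q ^ j) := by
    intro j
    induction j with
    | zero => intro x; simp
    | succ j ih => intro x; rw [Function.iterate_succ_apply', ih, hf]; simp only; rw [← pow_mul, pow_succ]
  have heig : ∀ j : ℕ, Eig A (mu ^ (q ^ j)) := by
    intro j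
    induction j with
    | zero => simpa using hmu
    | succ j ih =>
      have := (hGrt F n g _ ih).2.2
      rwa [← pow_mul, ← hq, ← pow_succ] at this
  have hcop : Nat.Coprime q (2 ^ (c' + 1)) := (Nat.Coprime.pow_right _ (by
    rw [Nat.coprime_two_right]; exact hqodd))
  have hper : Function.IsPeriodicPt f (Nat.totient (2 ^ (c' + 1))) mu := by
    have h1 : q ^ Nat.totient (2 ^ (c' + 1)) ≡ 1 [MOD 2 ^ (c' + 1)] := Nat.ModEq.pow_totient hcop
    change f^[_] mu = mu
    rw [hit]
    have := pow_eq_pow_of_modEq h1 hmuN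
    rwa [pow_one] at this
  have hspos : 0 < Function.minimalPeriod f mu :=
    hper.minimalPeriod_pos (Nat.totient_pos.2 (by positivity))
  set s := Function.minimalPeriod f mu with hs
  have hsper : f^[s] mu = mu := Function.isPeriodicPt_minimalPeriod f mu
  have hsdvd : 2 ^ (c' + 1) ∣ q ^ s - 1 := by
    rw [← hord]
    apply orderOf_dvd_of_pow_eq_one
    have h1 : mu ^ (q ^ s) = mu := by rw [← hit]; exact hsper
    have h3 : 1 ≤ q ^ s := Nat.one_le_pow _ _ hqodd.pos
    have h4 : mu ^ (q ^ s - 1) * mu = mu := by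
      rw [← pow_succ, Nat.sub_add_cancel h3]; exact h1
    exact mul_right_cancel₀ hmu0 (by rw [h4, one_mul])
  have hinj : Set.InjOn (fun j => f^[j] mu) (Set.Iio s) :=
    Function.iterate_injOn_Iio_minimalPeriod
  by_cases hb : ∃ j : ℕ, mu⁻¹ = mu ^ (q ^ j)
  · -- case (b)
    obtain ⟨j, hj⟩ := hb
    have h1 : 2 ^ (c' + 1) ∣ q ^ j + 1 := by
      rw [← hord]
      apply orderOf_dvd_of_pow_eq_one
      rw [pow_succ, ← hj, inv_mul_cancel₀ hmu0]
    have h3 := case_b q j (c' + 1) hqodd (by omega) h1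
    have h4 : 2 ^ (c' + 2) ∣ q ^ 2 - 1 := by
      obtain ⟨t, ht⟩ := hqodd
      have h5 : q ^ 2 - 1 = (q + 1) * (q - 1) := by
        rw [← Nat.sq_sub_sq, one_pow]
      rw [h5, pow_succ]
      exact mul_dvd_mul h3 ⟨t, by omega⟩
    obtain ⟨h, hh1, hh2⟩ := hGhx F 2 n (2 ^ (c' + 2)) h2 (by norm_num) hn h4
    refine ⟨h, c' + 2, hh1, ?_⟩
    intro d _ _ hd
    have h6 := (hh2 d hd).1
    rw [pow_succ, mul_comm _ 2] at h6
    have h7 := Nat.dvd_of_mul_dvd_mul_left (by norm_num) h6
    exact (pow_dvd_pow 2 hkc).trans h7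
  · -- case (a)
    push Not at hb
    set S1 : Finset (AlgebraicClosure F) := (Finset.range s).image (fun j => f^[j] mu) with hS1
    set S2 : Finset (AlgebraicClosure F) := (Finset.range s).image (fun j => (f^[j] mu)⁻¹) with hS2
    have hc1 : S1.card = s := by
      rw [hS1, Finset.card_image_of_injOn, Finset.card_range]
      simpa using hinj
    have hc2 : S2.card = s := by
      rw [hS2, Finset.card_image_of_injOn, Finset.card_range]
      intro a ha b hb' hab
      exact hinj (by simpa using ha) (by simpa using hb') (inv_injective hab)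
    have hdis : Disjoint S1 S2 := by
      rw [Finset.disjoint_left]
      intro x hx1 hx2
      rw [hS1, Finset.mem_image] at hx1
      rw [hS2, Finset.mem_image] at hx2
      obtain ⟨i, _, hi⟩ := hx1
      obtain ⟨j, hj, hj'⟩ := hx2
      have hjs : j < s := by simpa using hj
      apply hb (i + (s - j))
      have h1 : f^[s - j] x = mu⁻¹ := by
        rw [← hj', hit, inv_pow, ← hit, ← Function.iterate_add_apply]
        rw [show s - j + j = s by omega, hsper]
      rw [← h1, ← hi, ← Function.iterate_add_apply, hit, add_comm]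
    have hE : ∀ x ∈ S1 ∪ S2, Eig A x ∧ x ^ (2 ^ c') ≠ 1 := by
      have hE1 : ∀ j, Eig A (f^[j] mu) ∧ (f^[j] mu) ^ (2 ^ c') ≠ 1 := by
        intro j
        rw [hit]
        refine ⟨heig j, ?_⟩
        intro h1
        rw [← pow_mul, mul_comm, pow_mul] at h1
        have h3 : orderOf (mu ^ (2 ^ c')) = 2 := by
          rw [orderOf_pow_of_dvd (by positivity) (by rw [hord]; exact pow_dvd_pow 2 (by omega)), hord,
            pow_succ, Nat.mul_div_cancel_left _ (by positivity)]
        have h4 := orderOf_dvd_of_pow_eq_one h1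
        rw [h3] at h4
        have : Odd (q ^ j) := hqodd.pow
        exact (Nat.not_even_iff_odd.2 this) (even_iff_two_dvd.2 h4)
      intro x hx
      rw [Finset.mem_union] at hx
      rcases hx with hx | hx
      · rw [hS1, Finset.mem_image] at hx
        obtain ⟨i, _, hi⟩ := hx
        rw [← hi]; exact hE1 i
      · rw [hS2, Finset.mem_image] at hx
        obtain ⟨i, _, hi⟩ := hx
        rw [← hi]
        refine ⟨(hGrt F n g _ (hE1 i).1).2.1, ?_⟩
        rw [inv_pow]
        intro h1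
        exact (hE1 i).2 (inv_eq_one.1 h1)
    have hcardU : (S1 ∪ S2).card = 2 * s := by
      rw [Finset.card_union_of_disjoint hdis, hc1, hc2]; ring
    have hdim : Fintype.card (Fin n ⊕ Fin n) = 2 * n := by simp; ring
    by_cases hkc2 : k = c' + 1
    · -- there is another eigenvalue
      obtain ⟨nu, hnu, hnu1⟩ : ∃ nu : AlgebraicClosure F, Eig A nu ∧ nu ^ (2 ^ c') ≠ -1 := by
        by_contra hcon
        push Not at hcon
        have h1 := hGex F _ A (2 ^ (c' + 1)) (2 ^ c') (-1) hNz hAN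
          (fun lam hl => by rw [map_neg, map_one]; exact hcon lam hl)
        rw [neg_smul, one_smul] at h1
        have h3 := hcen _ (Or.inr h1)
        have := (Nat.pow_dvd_pow_iff_le_right (by norm_num : 1 < 2)).1 h3
        omega
      have hnu2 : nu ^ (2 ^ c') = 1 := by
        have h1 := eig_pow A _ hAN nu hnu
        rw [pow_succ, pow_mul, pow_two, mul_self_eq_one_iff] at h1
        exact h1.resolve_right hnu1
      have hnot : nu ∉ S1 ∪ S2 := fun h => (hE nu h).2 hnu2
      have hle := card_eig A (insert nu (S1 ∪ S2)) (by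
        intro x hx
        rw [Finset.mem_insert] at hx
        rcases hx with rfl | hx
        · exact hnu
        · exact (hE x hx).1)
      rw [Finset.card_insert_of_notMem hnot, hcardU, hdim] at hle
      have hsn : s < n := by omega
      obtain ⟨h, hh1, hh2⟩ := hGhx F s n (2 ^ (c' + 1)) h2 hspos hsn.le hsdvd
      refine ⟨h, c' + 1, hh1, ?_⟩
      intro d _ _ hd
      rw [hkc2]
      exact (hh2 d hd).2 hsn
    · have hle := card_eig A (S1 ∪ S2) (fun x hx => (hE x hx).1)
      rw [hcardU, hdim] at hle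
      have hsn : s ≤ n := by omega
      obtain ⟨h, hh1, hh2⟩ := hGhx F s n (2 ^ (c' + 1)) h2 hspos hsn hsdvd
      refine ⟨h, c' + 1, hh1, ?_⟩
      intro d _ _ hd
      have h6 := (hh2 d hd).1
      rw [pow_succ, mul_comm _ 2] at h6
      have h7 := Nat.dvd_of_mul_dvd_mul_left (by norm_num) h6
      exact (pow_dvd_pow 2 (by omega)).trans h7

end Pool.Agent.Eng.H4
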