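import Pool.Agent.Helper13_Eng2.Stmts

set_option autoImplicit false

namespace Pool.Agent.Eng.H4

theorem mk_eng {G : Type} [Group G] (Z : Subgroup G) [Z.Normal] (y x : G) (k : ℕ) :
    (((eng y)^[k] x : G) : G ⧸ Z) = (eng (y : G ⧸ Z))^[k] (x : G ⧸ Z) := by
  induction k with
  | zero => rfl
  | succ k ih =>
    rw [Function.iterate_succ_apply', Function.iterate_succ_apply', ← ih]
    rfl

/-- HAB -/
theorem hab : HabStmt := by
  intro G _ Z _ M _ π S y T h1 h2 h3 d hlaw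
  obtain ⟨r, hr⟩ := hlaw
  refine ⟨r, ?_⟩
  ext m
  obtain ⟨x, hx, rfl⟩ := h3 m
  have key : ∀ k : ℕ, (eng y)^[k] x ∈ S ∧ π ((eng y)^[k] x) = ((T - 1) ^ k) (π x) := by
    intro k
    induction k with
    | zero => exact ⟨hx, by simp⟩
    | succ k ih =>
      rw [Function.iterate_succ_apply']
      obtain ⟨a, b⟩ := h1 _ ih.1
      refine ⟨a, ?_⟩
      rw [b, ih.2, pow_succ']
      rfl
  have hq := hr (x : G ⧸ Z) (y : G ⧸ Z)
  rw [← mk_eng, ← mk_eng] at hq
  have hz := QuotientGroup.eq.mp hq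
  have he : (eng y)^[r + d] x = (eng y)^[r] x * (((eng y)^[r] x)⁻¹ * (eng y)^[r + d] x) := by
    group
  have h4 := h2 ((eng y)^[r] x) (((eng y)^[r] x)⁻¹ * (eng y)^[r + d] x) (key r).1 hz
    (by rw [← he]; exact (key (r + d)).1)
  rw [← he, (key (r + d)).2, (key r).2] at h4
  exact h4

end Pool.Agent.Eng.H4
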