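import Pool.Agent.Helper6_Eng.Stmts

set_option autoImplicit false

namespace Pool.Agent.Eng.H4

open Polynomial

theorem lir : LirStmt := by
  intro F V _ _ _ _ _ _ g hirr
  classical
  obtain ⟨v0, hv0⟩ := exists_ne (0 : V)
  -- elements of the algebra generated by `g`
  let S : Subalgebra F (Module.End F V) := Algebra.adjoin F {g}
  have hcomm : ∀ a ∈ S, ∀ b ∈ S, a * b = b * a := by
    intro a ha b hb
    have ha' : a ∈ Algebra.adjoin F {g} := ha
    have hb' : b ∈ Algebra.adjoin F {g} := hb
    rw [Algebra.adjoin_singleton_eq_range_aeval, AlgHom.mem_range] at ha' hb'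
    obtain ⟨p, rfl⟩ := ha'
    obtain ⟨q, rfl⟩ := hb'
    rw [← map_mul, ← map_mul, mul_comm]
  have hgS : g ∈ S := Algebra.subset_adjoin rfl
  have hker : ∀ a ∈ S, ∀ v : V, v ≠ 0 → a v = 0 → a = 0 := by
    intro a ha v hv hav
    have h1 : ∀ x ∈ LinearMap.ker a, g x ∈ LinearMap.ker a := by
      intro x hx
      rw [LinearMap.mem_ker] at hx ⊢
      have h3 := congrArg (fun f : Module.End F V => f x) (hcomm a ha g hgS)
      simp only [Module.End.mul_apply] at h3
      rw [h3, hx, map_zero]
    rcases hirr _ h1 with h3 | h3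
    · exfalso
      apply hv
      have : v ∈ LinearMap.ker a := hav
      rw [h3] at this
      exact (Submodule.mem_bot F).1 this
    · exact LinearMap.ker_eq_top.1 h3
  let _ : CommRing S := { (inferInstance : Ring S) with
    mul_comm := fun a b => Subtype.ext (hcomm a.1 a.2 b.1 b.2) }
  have hnt : Nontrivial S := by
    refine ⟨⟨1, 0, ?_⟩⟩
    intro h
    apply hv0
    have h1 := congrArg (fun f : S => (f : Module.End F V) v0) h
    simpa using h1
  have hdom : IsDomain S := by
    have : NoZeroDivisors S := by
      refine ⟨?_⟩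
      intro a b hab
      by_contra hc
      push Not at hc
      obtain ⟨ha, hb⟩ := hc
      have hb0 : (b : Module.End F V) v0 ≠ 0 := by
        intro h
        exact hb (Subtype.ext (hker b.1 b.2 v0 hv0 h))
      apply ha
      apply Subtype.ext
      apply hker a.1 a.2 _ hb0
      have h1 := congrArg (fun f : S => (f : Module.End F V) v0) hab
      simpa using h1
    exact NoZeroDivisors.to_isDomain S
  let _ : Field S := fieldOfFiniteDimensional F S
  let lam : S := ⟨g, hgS⟩
  let E : S →ₗ[F] V :=
    { toFun := fun a => (a : Module.End F V) v0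
      map_add' := fun a b => rfl
      map_smul' := fun c a => rfl }
  have hEinj : Function.Injective E := by
    rw [injective_iff_map_eq_zero]
    intro a ha
    exact Subtype.ext (hker a.1 a.2 v0 hv0 ha)
  have hEmul : ∀ a : S, E (lam * a) = g (E a) := fun a => rfl
  have hEsurj : Function.Surjective E := by
    rw [← LinearMap.range_eq_top]
    rcases hirr (LinearMap.range E) (by
      rintro x ⟨a, rfl⟩
      exact ⟨lam * a, hEmul a⟩) with h | h
    · exfalso
      apply hv0
      have h1 : E 1 ∈ LinearMap.range E := ⟨1, rfl⟩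
      rw [h] at h1
      exact (Submodule.mem_bot F).1 h1
    · exact h
  let e0 : S ≃ₗ[F] V := LinearEquiv.ofBijective E ⟨hEinj, hEsurj⟩
  refine ⟨S, inferInstance, inferInstance, inferInstance, lam, e0.symm, ?_, ?_⟩
  · rw [eq_top_iff]
    rintro ⟨a, ha⟩ _
    have ha' : a ∈ Algebra.adjoin F {g} := ha
    rw [Algebra.adjoin_singleton_eq_range_aeval, AlgHom.mem_range] at ha'
    obtain ⟨p, hp⟩ := ha'
    rw [Algebra.adjoin_singleton_eq_range_aeval, AlgHom.mem_range]
    refine ⟨p, ?_⟩
    apply Subtype.ext
    change S.val (aeval lam p) = a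
    rw [← hp]
    exact (aeval_algHom_apply S.val lam p).symm
  · intro v
    apply e0.injective
    rw [LinearEquiv.apply_symm_apply]
    change g v = E (lam * e0.symm v)
    rw [hEmul]
    change g v = g (e0 (e0.symm v))
    rw [LinearEquiv.apply_symm_apply]

end Pool.Agent.Eng.H4
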